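import Pool.Agent.Lib.MP_776403_ag.SD.SpecA

/-!
# THEOREM SD, part A, module AOf: assembly of step A (helper73)
-/

set_option autoImplicit false

open MvPolynomial

noncomputable section

namespace Pool.Agent.Lib.MP_776403_ag.SD

theorem aAOf : S_AOf := by
  intro hL3 hSV hPerp h1 h2 N c d I hyp K G hK hD hPL x v hl s hs
  have hs' : s ∈ Sec I x v K := hs
  by_cases hex : ∃ σ τ : ℂ, (σ ≠ 0 ∨ τ ≠ 0) ∧ hval s K σ τ ∈ GS d K G (σ • x + τ • v)
  · obtain ⟨σ, τ, hne, hmem⟩ := hex
    obtain ⟨L, hL, -, hL2⟩ := hL3 N c d I hyp K K G hK (Or.inl rfl) hD hPL x v hl s hs' σ τ hne hmem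
    exact ⟨L, hL, hL2⟩
  · exfalso
    have hno : ∀ σ τ : ℂ, (σ ≠ 0 ∨ τ ≠ 0) → hval s K σ τ ∉ GS d K G (σ • x + τ • v) :=
      fun σ τ hne hmem => hex ⟨σ, τ, hne, hmem⟩
    by_cases hall : ∀ i, d i ≤ K
    · have hx : x ∈ zer I := by
        have := hl.2 1 0
        rwa [one_smul, zero_smul, add_zero] at this
      have hx0 : x ≠ 0 := hl.1.ne_zero 0
      obtain ⟨p1, p2, -, -⟩ := hPerp N c I hyp.prime hyp.hom hyp.smooth x hx hx0
      have hind := hD.ind x hx hx0
      have hGS : GS d K G x = Submodule.span ℂ (Set.range fun i : {i // d i ≤ K} => grad (G i) x) := by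
        unfold GS
        congr 1
        ext u
        constructor
        · rintro ⟨i, hi, rfl⟩
          exact ⟨⟨i, hi⟩, rfl⟩
        · rintro ⟨i, rfl⟩
          exact ⟨i.1, i.2, rfl⟩
      have hle : GS d K G x ≤ CN I x := by
        refine Submodule.span_le.2 ?_
        rintro u ⟨i, hi, rfl⟩
        exact p2 _ (hD.hom i hi).1
      have hfin : Module.finrank ℂ (GS d K G x) = c := by
        rw [hGS, finrank_span_eq_card hind, Fintype.card_subtype]
        rw [Finset.filter_true_of_mem fun i _ => hall i, Finset.card_univ, Fintype.card_fin]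
      have heq : GS d K G x = CN I x := Submodule.eq_of_le_of_finrank_eq hle (by rw [hfin, p1])
      have hdeg : ∀ i, s i ∈ Polynomial.degreeLT ℂ K := hs'.1
      have k1 := (hSV N c I hyp.prime hyp.hom hyp.smooth x v hl K s hdeg).1 hs' 1 0 (Or.inl one_ne_zero)
      have k2 := hno 1 0 (Or.inl one_ne_zero)
      have e1 : (1 : ℂ) • x + (0 : ℂ) • v = x := by rw [one_smul, zero_smul, add_zero]
      rw [e1] at k1 k2
      rw [heq] at k2
      exact k2 k1
    · push Not at hall
      obtain ⟨k, rfl⟩ : ∃ k, K = k + 1 := ⟨K - 1, by omega⟩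
      rcases Nat.eq_zero_or_pos k with rfl | hk
      · exact h1 N c d I hyp G hD x v hl s hs' hno
      · exact h2 N c d I hyp k G hk hall hD hPL x v hl s hs' hno

end Pool.Agent.Lib.MP_776403_ag.SD
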