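import Pool.Agent.Lib.MP_776403_ag.SD.SpecA
import Pool.Agent.Lib.MP_776403_ag.SD.Bas

/-!
# The orthogonality equations are affine-linear
-/

set_option autoImplicit false

open MvPolynomial

noncomputable section

namespace Pool.Agent.Lib.MP_776403_ag.SD

namespace AffAux

theorem coeff_gen {R : Type} [CommRing R] {m k : ℕ} (a : Fin m → R) (b : Fin m × Fin k → R)
    (f : Fin m → Polynomial R) (n : ℕ) :
    (∑ i, (Polynomial.C (a i) + ∑ j : Fin k, Polynomial.C (b (i, j)) *
      Polynomial.X ^ (j.1 + 1)) * f i).coeff n =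
    ∑ c : Fin m × Fin k, (if c.2.1 + 1 ≤ n then (f c.1).coeff (n - (c.2.1 + 1)) else 0) * b c +
      ∑ i, a i * (f i).coeff n := by
  rw [Polynomial.finsetSum_coeff, Fintype.sum_prod_type, ← Finset.sum_add_distrib]
  refine Finset.sum_congr rfl fun i _ => ?_
  rw [add_mul, Polynomial.coeff_add, Polynomial.coeff_C_mul, Finset.sum_mul,
    Polynomial.finsetSum_coeff, add_comm]
  congr 1
  refine Finset.sum_congr rfl fun j _ => ?_
  rw [mul_assoc, Polynomial.coeff_C_mul, Polynomial.coeff_X_pow_mul', mul_comm]

end AffAux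

open AffAux in
theorem aAff : S_LinS → S_Aff := by
  intro hLin N k x ξ w n
  constructor
  · have h := coeff_gen (R := Ak N k) (m := N + 1) (k := k) (fun i => C (ξ i))
      (fun c => X (Sum.inr c)) (fun i => linA k x (w i)) n
    refine h.trans ?_
    unfold aff
    congr 1
    · refine Finset.sum_congr rfl fun c _ => ?_
      unfold eqA
      split_ifs with hc
      · rw [(hLin N x (w c.1) (n - (c.2.1 + 1))).1 k]
      · rw [map_zero]
    · unfold eqB
      rw [map_sum]
      refine Finset.sum_congr rfl fun i _ => ?_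
      rw [(hLin N x (w i) n).1 k, map_mul, rename_C]
  · intro z s
    have h := coeff_gen (R := ℂ) (m := N + 1) (k := k) ξ s (fun i => lin x z (w i)) n
    refine h.trans ?_
    congr 1
    · refine Finset.sum_congr rfl fun c _ => ?_
      unfold eqA
      split_ifs with hc
      · rw [(hLin N x (w c.1) (n - (c.2.1 + 1))).2.1 z]
      · rw [map_zero]
    · unfold eqB
      rw [map_sum]
      refine Finset.sum_congr rfl fun i _ => ?_
      rw [map_mul, eval_C, (hLin N x (w i) n).2.1 z]

end Pool.Agent.Lib.MP_776403_ag.SD
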