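import Pool.Agent.Lib.MP_776403_ag.SD.SpecA

/-!
# THEOREM SD, step A, module Ari: the dimension count
-/

set_option autoImplicit false

open MvPolynomial

noncomputable section

namespace Pool.Agent.Lib.MP_776403_ag.SD

theorem aAri : S_Ari := by
  classical
  intro N c k d hd hN hk hex
  set r := Fintype.card {i // d i ≤ k + 1} with hr
  set r' := (Finset.univ.filter fun i : Fin c => ¬ d i ≤ k + 1).card with hr'
  have hrf : r = (Finset.univ.filter fun i : Fin c => d i ≤ k + 1).card := by
    rw [hr, Fintype.card_subtype]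
  have h1 : r + r' = c := by
    rw [hrf, hr', Finset.card_filter_add_card_filter_not, Finset.card_univ, Fintype.card_fin]
  have h2 : 1 ≤ r' := by
    obtain ⟨i, hi⟩ := hex
    rw [hr', Nat.one_le_iff_ne_zero, ← Nat.pos_iff_ne_zero, Finset.card_pos]
    exact ⟨i, Finset.mem_filter.2 ⟨Finset.mem_univ _, by omega⟩⟩
  set T := ∑ i ∈ Finset.univ.filter fun i : Fin c => d i ≤ k + 1, d i with hT
  have h3 : ∑ i, (k + 1 - d i) + T = r * (k + 1) := by
    have e1 : ∑ i, (k + 1 - d i)
        = ∑ i ∈ Finset.univ.filter fun i : Fin c => d i ≤ k + 1, (k + 1 - d i) := by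
      rw [Finset.sum_filter]
      refine Finset.sum_congr rfl fun i _ => ?_
      by_cases h : d i ≤ k + 1
      · rw [if_pos h]
      · rw [if_neg h]; omega
    rw [e1, hT, ← Finset.sum_add_distrib, hrf, ← smul_eq_mul, ← Finset.sum_const]
    refine Finset.sum_congr rfl fun i hi => ?_
    have := (Finset.mem_filter.1 hi).2
    omega
  have h4 : 2 * c ≤ ∑ i, d i := by
    have : ∑ _i : Fin c, 2 ≤ ∑ i, d i := Finset.sum_le_sum fun i _ => hd i
    simpa [mul_comm] using this
  have hcard : Fintype.card (Fin (N + 1) ⊕ (Fin (N + 1) × Fin k)) = (N + 1) + (N + 1) * k := by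
    simp
  rw [hcard]
  obtain ⟨M, hM⟩ : ∃ M, N + 1 = c + M := ⟨N + 1 - c, by omega⟩
  have hM' : N + 1 - c = M := by omega
  rw [hM']
  have h5 : (N + 1) * k = r * k + r' * k + M * k := by
    rw [hM, ← h1]; ring
  have h6 : r * (k + 1) = r * k + r := by ring
  have h7 : 1 ≤ r' * k := Nat.mul_pos h2 hk
  rw [h5]
  rw [h6] at h3
  omega

end Pool.Agent.Lib.MP_776403_ag.SD
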