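import Pool.Agent.Lib.MP_776403_ag.SD.SpecA
import Pool.Agent.Lib.MP_776403_ag.SD.Bas

/-!
# THEOREM SD, part A: step A for `K = 1` (`S_CaseOne`)
-/

set_option autoImplicit false

open MvPolynomial

noncomputable section

namespace Pool.Agent.Lib.MP_776403_ag.SD

namespace CaseOneAux

variable {N : ℕ}

/-- The value at `(1, 0)` is the vector of the constant coefficients. -/
theorem hval_one (s : Fin (N + 1) → Polynomial ℂ) :
    hval s 1 1 0 = fun i => (s i).coeff 0 := by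
  funext i
  simp [hval]

/-- The equation of top degree for a constant vector. -/
theorem const_mem (hLinS : S_LinS) (I : Ideal (Sx N)) (x ξ : Vx N) (P : Ideal (Ak N 0))
    (hJ2 : J2 I x ξ 0 ≤ P) (w : Fin (N + 1) → Sx N) (hw : w ∈ TF I) (m : ℕ)
    (hm : ∀ i, (w i).IsHomogeneous m) : (∑ i, C (ξ i) * w i) ∈ P0 P := by
  have h1 : (∑ i, sA 0 ξ i * linA 0 x (w i)).coeff m ∈ P :=
    hJ2 (Ideal.subset_span ⟨w, hw, m, rfl⟩)
  have h2 : (∑ i, sA 0 ξ i * linA 0 x (w i)).coeff m =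
      rename Sum.inl (∑ i, C (ξ i) * w i) := by
    rw [Polynomial.finsetSum_coeff, map_sum]
    refine Finset.sum_congr rfl fun i _ => ?_
    have h3 : sA 0 ξ i = Polynomial.C (C (ξ i)) := by
      unfold sA
      rw [Finset.univ_eq_empty, Finset.sum_empty, add_zero]
    rw [h3, Polynomial.coeff_C_mul, (hLinS N x (w i) m).1 0,
      ((hLinS N x (w i) m).2.2.2.1 m (hm i)).1, map_mul, rename_C]
  rw [h2] at h1
  exact h1

/-- `GS` is zero in degree one. -/
theorem GS_one {c : ℕ} {d : Fin c → ℕ} (h2 : ∀ i, 2 ≤ d i) (G : Fin c → Sx N) (y : Vx N) :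
    GS d 1 G y = ⊥ := by
  unfold GS
  rw [Submodule.span_eq_bot]
  rintro u ⟨i, hi, _⟩
  exact absurd (le_trans (h2 i) hi) (by norm_num)

end CaseOneAux

open CaseOneAux in
/-- Step A for `K = 1`. -/
theorem aCaseOne : S_Loc → S_Good → S_Repar → S_E → S_WH → S_PtE → S_Krull → S_Frac → S_P0 →
    S_LinS → S_Perp → S_FinA → S_CaseOne := by
  intro hLoc hGood hRepar hE hWH hPt hKrull hFrac hP0 hLinS hPerp hFinA N c d I hyp G hD x v hl s
    hs hno
  have hx : x ∈ zer I := by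
    have := mem_zer_line hl 0
    rwa [zero_smul, add_zero] at this
  have hx0 : x ≠ 0 := by
    have := line_ne_zero' hl 0
    rwa [zero_smul, add_zero] at this
  obtain ⟨L⟩ := hLoc N c I hyp.smooth x hx hx0
  obtain ⟨μ, hμ⟩ := hGood N c I x v L
  obtain ⟨hl', hrep⟩ := hRepar N c I hyp.prime hyp.hom hyp.smooth x v μ hl
  obtain ⟨s', hs', hval'⟩ := hrep 1 s hs
  -- the constant vector
  have hξ : (fun i => (s' i).coeff 0) ≠ (0 : Vx N) := by
    intro h0
    have h1 : hval s 1 1 0 = 0 := by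
      have h2 := hval' 1 0
      rw [mul_zero, add_zero, hval_one, h0] at h2
      exact h2.symm
    refine hno 1 0 (Or.inl one_ne_zero) ?_
    rw [h1]
    exact Submodule.zero_mem _
  have hs1 : s' ∈ Sec I x (v + μ • x) (0 + 1) := hs'
  obtain ⟨b, hbJ, hJb⟩ := hE N c d I hyp x (v + μ • x) hl' L hμ 0 s' hs1
  obtain ⟨-, -, -, hpt1, hpt2⟩ := hPt N I hyp.hom x (v + μ • x) 0 hl' s' hs1
  obtain ⟨hw1, hw2, hw3, -⟩ := hWH N I x (fun i => (s' i).coeff 0) 0
  obtain ⟨P, hPp, hJP, hPz, hPw, y, hy⟩ := hKrull _ (wt N 0) _ (ptA 0 (v + μ • x) s') _ b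
    (hw3 _ _ hw1 hw2) (sup_le hpt1 hpt2) hbJ hJb
  have hcd : c + c ≤ ∑ i, d i := by
    have h1 : ∑ _i : Fin c, 2 ≤ ∑ i, d i := Finset.sum_le_sum fun i _ => hyp.two_le i
    rw [Finset.sum_const, Finset.card_univ, Fintype.card_fin, smul_eq_mul] at h1
    lia
  have hcard : c + 1 ≤ Fintype.card (Fin (N + 1) ⊕ (Fin (N + 1) × Fin 0)) -
      (∑ i, d i + (∑ i, d i - c) + (N + 1 - c) * 0) := by
    rw [Fintype.card_sum, Fintype.card_prod, Fintype.card_fin, Fintype.card_fin]
    have := hyp.large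
    lia
  have hdim : DimGe (P0 P) (c + 1) :=
    hFrac N (Fin (N + 1) × Fin 0) P (c + 1) (fun j => y (Fin.castLE hcard j)) hPp
      (hy.comp _ (Fin.castLE_injective hcard)) (fun p => Fin.elim0 p.2)
  have hJ1 : J1 I x 0 ≤ P := le_trans le_sup_left hJP
  have hJ2 : J2 I x (fun i => (s' i).coeff 0) 0 ≤ P := le_trans le_sup_right hJP
  obtain ⟨hp0, hh0, hI0, -⟩ := hP0 N I hyp.hom x 0 P hPp hPw hJ1
  -- the constant vector is a section of degree one
  have hsect : IsSect I (P0 P) 1 (fun _ i => (s' i).coeff 0) := by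
    intro z hz hz0
    have hzI : z ∈ zer I := fun F hF => hz F (hI0 hF)
    refine ⟨?_, fun l => C ((s' l).coeff 0), 1, 0, fun l => isHomogeneous_C _ _,
      isHomogeneous_one _ _, ?_, ?_⟩
    · refine (hPerp N c I hyp.prime hyp.hom hyp.smooth z hzI hz0).2.2.2 _ ?_
      intro w hw m hm
      have h1 := hz _ (const_mem hLinS I x _ P hJ2 w hw m hm)
      rw [map_sum] at h1
      rw [← h1]
      refine Finset.sum_congr rfl fun i _ => ?_
      rw [map_mul, eval_C]
    · rw [map_one]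
      exact one_ne_zero
    · intro z' _ _ l
      rw [map_one, mul_one, eval_C]
  refine hFinA N c d I hyp 1 G le_rfl hD (P0 P) hp0 hh0 hI0 _ hsect ?_ ?_
  · intro z _ _ hmem
    rw [GS_one hyp.two_le, Submodule.mem_bot] at hmem
    exact hξ hmem
  · have h0 : Fintype.card {i // d i ≤ 1} = 0 := by
      rw [Fintype.card_eq_zero_iff]
      exact ⟨fun i => absurd (le_trans (hyp.two_le i.1) i.2) (by norm_num)⟩
    rw [h0, Nat.sub_zero]
    exact hdim

end Pool.Agent.Lib.MP_776403_ag.SD
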