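import Pool.Agent.Lib.MP_776403_ag.SD.SpecA
import Pool.Agent.Lib.MP_776403_ag.SD.Bas

/-!
# THEOREM SD, part A: combinations of gradients on a line
-/

set_option autoImplicit false

open MvPolynomial

noncomputable section

namespace Pool.Agent.Lib.MP_776403_ag.SD

namespace CombVAux

variable {N : ℕ}

/-- The homogenization of a polynomial of degree `≤ m`. -/
def hom (p : Polynomial ℂ) (m : ℕ) (σ τ : ℂ) : ℂ :=
  ∑ j ∈ Finset.range (m + 1), p.coeff j * σ ^ (m - j) * τ ^ j

theorem hom_at_zero (p : Polynomial ℂ) (m : ℕ) (τ : ℂ) : hom p m 0 τ = p.coeff m * τ ^ m := by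
  unfold hom
  rw [Finset.sum_eq_single m]
  · simp
  · intro j hj hne
    have : m - j ≠ 0 := by
      have := Finset.mem_range.mp hj
      omega
    rw [zero_pow this]
    ring
  · intro h
    exact absurd (Finset.mem_range.mpr (Nat.lt_succ_self m)) h

theorem natDegree_le_of_mem {p : Polynomial ℂ} {m : ℕ}
    (hp : p ∈ Polynomial.degreeLT ℂ (m + 1)) : p.natDegree ≤ m := by
  by_cases h0 : p = 0
  · rw [h0, Polynomial.natDegree_zero]; exact Nat.zero_le _
  · rw [Polynomial.mem_degreeLT, Polynomial.degree_eq_natDegree h0] at hp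
    have h1 : p.natDegree < m + 1 := by exact_mod_cast hp
    omega

theorem mul_mem_degreeLT {p q : Polynomial ℂ} {a b : ℕ}
    (hp : p ∈ Polynomial.degreeLT ℂ (a + 1)) (hq : q ∈ Polynomial.degreeLT ℂ (b + 1)) :
    p * q ∈ Polynomial.degreeLT ℂ (a + b + 1) := by
  rw [Polynomial.mem_degreeLT]
  have h1 := natDegree_le_of_mem hp
  have h2 := natDegree_le_of_mem hq
  have h3 : (p * q).natDegree ≤ a + b := Polynomial.natDegree_mul_le.trans (by omega)
  refine lt_of_le_of_lt Polynomial.degree_le_natDegree ?_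
  have h4 : (p * q).natDegree < a + b + 1 := by omega
  exact_mod_cast h4

/-- The homogenization is multiplicative. -/
theorem hom_mul {p q : Polynomial ℂ} {a b : ℕ} (hp : p ∈ Polynomial.degreeLT ℂ (a + 1))
    (hq : q ∈ Polynomial.degreeLT ℂ (b + 1)) (σ τ : ℂ) :
    hom (p * q) (a + b) σ τ = hom p a σ τ * hom q b σ τ := by
  by_cases hσ : σ = 0
  · subst hσ
    rw [hom_at_zero, hom_at_zero, hom_at_zero, Polynomial.coeff_mul_add_eq_of_natDegree_le
      (natDegree_le_of_mem hp) (natDegree_le_of_mem hq), pow_add]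
    ring
  · have h1 := homog_val (mul_mem_degreeLT hp hq) hσ τ
    have h2 := homog_val hp hσ τ
    have h3 := homog_val hq hσ τ
    unfold hom
    rw [h1, h2, h3, Polynomial.eval_mul, pow_add]
    ring

/-- The values of the product of a section with a polynomial. -/
theorem hval_mul {s : Fin (N + 1) → Polynomial ℂ} {L : Polynomial ℂ} {a b n : ℕ}
    (hs : ∀ l, s l ∈ Polynomial.degreeLT ℂ (b + 1)) (hL : L ∈ Polynomial.degreeLT ℂ (a + 1))
    (hn : n = a + b + 1) (σ τ : ℂ) :
    hval (fun l => L * s l) n σ τ = hom L a σ τ • hval s (b + 1) σ τ := by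
  subst hn
  funext l
  exact hom_mul hL (hs l) σ τ

theorem hval_sum {ι : Type} (S : Finset ι) (s : ι → Fin (N + 1) → Polynomial ℂ) (n : ℕ)
    (σ τ : ℂ) : hval (fun l => ∑ i ∈ S, s i l) n σ τ = ∑ i ∈ S, hval (s i) n σ τ := by
  funext l
  rw [Finset.sum_apply]
  unfold hval
  simp only [Polynomial.finsetSum_coeff, Finset.sum_mul]
  exact Finset.sum_comm

theorem hval_zero (n : ℕ) (σ τ : ℂ) :
    hval (fun _ : Fin (N + 1) => (0 : Polynomial ℂ)) n σ τ = 0 := by
  funext l
  simp [hval]

end CombVAux

open CombVAux in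
theorem aCombV : S_CombV := by
  intro N c d I hd K G hG x v hline n L hL hL0
  have hcase : ∀ i, L i = 0 ∨ (d i ≤ K ∧ d i ≤ n) := by
    intro i
    by_cases h1 : d i ≤ K
    · by_cases h2 : d i ≤ n
      · exact Or.inr ⟨h1, h2⟩
      · left
        have h3 := hL i
        rw [show n + 1 - d i = 0 by omega, Polynomial.mem_degreeLT] at h3
        rw [← Polynomial.degree_eq_bot]
        exact Nat.WithBot.lt_zero_iff.1 h3
    · exact Or.inl (hL0 i (by omega))
  constructor
  · have h1 : (fun l => ∑ i, L i * gradL x v (G i) l) =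
        ∑ i, (fun l => L i * gradL x v (G i) l) := by
      funext l
      rw [Finset.sum_apply]
    rw [h1]
    refine Submodule.sum_mem _ (fun i _ => ?_)
    rcases hcase i with h0 | ⟨h2, h3⟩
    · simp only [h0, zero_mul]
      exact Submodule.zero_mem _
    · obtain ⟨hGI, hGh⟩ := hG i h2
      have h4 : L i ∈ Polynomial.degreeLT ℂ ((n - d i) + 1) := by
        have h5 := hL i
        rwa [show n + 1 - d i = (n - d i) + 1 by omega] at h5
      have h6 := Sec_mul (gradL_mem_Sec hline hGI hGh) h4
      rwa [show d i + (n - d i) = n by omega] at h6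
  · intro σ τ
    rw [hval_sum Finset.univ (fun i l => L i * gradL x v (G i) l)]
    refine Submodule.sum_mem _ (fun i _ => ?_)
    rcases hcase i with h0 | ⟨h2, h3⟩
    · simp only [h0, zero_mul]
      rw [hval_zero]
      exact Submodule.zero_mem _
    · obtain ⟨hGI, hGh⟩ := hG i h2
      have hd2 := hd i
      have h4 : L i ∈ Polynomial.degreeLT ℂ ((n - d i) + 1) := by
        have h5 := hL i
        rwa [show n + 1 - d i = (n - d i) + 1 by omega] at h5
      have h5 : ∀ l, gradL x v (G i) l ∈ Polynomial.degreeLT ℂ ((d i - 1) + 1) := by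
        intro l
        rw [Nat.sub_add_cancel (by omega)]
        exact gradL_mem hGh x v l
      rw [hval_mul h5 h4 (by omega), Nat.sub_add_cancel (by omega),
        gradL_hval hGh (by omega)]
      exact Submodule.smul_mem _ _ (Submodule.subset_span ⟨i, h2, rfl⟩)

end Pool.Agent.Lib.MP_776403_ag.SD
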