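import Pool.Agent.Lib.MP_776403_ag.SD.SpecA

/-!
# THEOREM SD, part A: Cramer's rule for affine-linear equations modulo an ideal
-/

set_option autoImplicit false

open MvPolynomial

noncomputable section

namespace Pool.Agent.Lib.MP_776403_ag.SD

namespace CramAux

variable {N : ℕ} {τ : Type} [Fintype τ]

lemma aff_add (A A' : τ → Sx N) (b b' : Sx N) :
    aff A b + aff A' b' = aff (fun c => A c + A' c) (b + b') := by
  simp only [aff, map_add, add_mul, Finset.sum_add_distrib]
  ring

lemma aff_smul (q : Sx N) (A : τ → Sx N) (b : Sx N) :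
    rename Sum.inl q * aff A b = aff (fun c => q * A c) (q * b) := by
  simp only [aff, map_mul, mul_add, Finset.mul_sum, mul_assoc]

lemma aff_zero : aff (fun _ : τ => (0 : Sx N)) 0 = 0 := by
  simp [aff]

/-- the values at `z` of the linear parts of the affine-linear elements of `P` -/
def W (P : Ideal (MvPolynomial (Fin (N + 1) ⊕ τ) ℂ)) (z : Vx N) : Submodule ℂ (τ → ℂ) where
  carrier := {a | ∃ (A : τ → Sx N) (b : Sx N), aff A b ∈ P ∧ ∀ c, eval z (A c) = a c}
  zero_mem' := ⟨fun _ => 0, 0, by rw [aff_zero]; exact P.zero_mem, fun c => by simp⟩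
  add_mem' := by
    rintro a a' ⟨A, b, h1, h2⟩ ⟨A', b', h1', h2'⟩
    refine ⟨fun c => A c + A' c, b + b', ?_, fun c => ?_⟩
    · rw [← aff_add]
      exact P.add_mem h1 h1'
    · rw [map_add, h2, h2', Pi.add_apply]
  smul_mem' := by
    rintro q a ⟨A, b, h1, h2⟩
    refine ⟨fun c => C q * A c, C q * b, ?_, fun c => ?_⟩
    · rw [← aff_smul]
      exact P.mul_mem_left _ h1
    · rw [map_mul, eval_C, h2, Pi.smul_apply, smul_eq_mul]

lemma W_top {P : Ideal (MvPolynomial (Fin (N + 1) ⊕ τ) ℂ)} {z : Vx N}
    (h : ∀ s : τ → ℂ, (∀ (A : τ → Sx N) (b : Sx N), aff A b ∈ P → ∑ c, eval z (A c) * s c = 0) →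
      s = 0) : W P z = ⊤ := by
  classical
  by_contra hne
  obtain ⟨f, hf0, hf⟩ := Submodule.exists_le_ker_of_lt_top (W P z) (lt_top_iff_ne_top.2 hne)
  apply hf0
  have hs := h (fun c => f (Pi.single c 1)) (by
    intro A b hAb
    have hm : (fun c => eval z (A c)) ∈ W P z := ⟨A, b, hAb, fun c => rfl⟩
    have h0 : f (fun c => eval z (A c)) = 0 := LinearMap.mem_ker.1 (hf hm)
    have e : (fun c => eval z (A c)) = ∑ c, eval z (A c) • (Pi.single c (1 : ℂ) : τ → ℂ) := by
      funext c
      simp [Finset.sum_apply, Pi.single_apply]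
    rw [e, map_sum] at h0
    simpa only [map_smul, smul_eq_mul] using h0)
  refine LinearMap.pi_ext' fun c => ?_
  refine LinearMap.ext_ring ?_
  have := congrFun hs c
  simpa using this

end CramAux

open CramAux in
theorem aCram : S_Cram := by
  classical
  intro N τ _ P z hz hs
  have hW := W_top hs
  have hex : ∀ c : τ, ∃ (A : τ → Sx N) (b : Sx N), aff A b ∈ P ∧
      ∀ c', eval z (A c') = (1 : Matrix τ τ ℂ) c c' := by
    intro c
    have hm : (fun c' => (1 : Matrix τ τ ℂ) c c') ∈ W P z := by
      rw [hW]
      exact Submodule.mem_top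
    exact hm
  choose A b hA hev using hex
  let M : Matrix τ τ (Sx N) := Matrix.of A
  have hg : eval z M.det = 1 := by
    have h1 : (eval z) M.det = ((eval z).mapMatrix M).det := RingHom.map_det (eval z) M
    have h2 : (eval z).mapMatrix M = 1 := by
      ext c c'
      simp only [RingHom.mapMatrix_apply, Matrix.map_apply]
      exact hev c c'
    rw [h1, h2, Matrix.det_one]
  let h : τ → Sx N := fun d => - ∑ c, M.adjugate d c * b c
  have hgX : ∀ d, rename Sum.inl M.det * X (Sum.inr d) - rename Sum.inl (h d) ∈ P := by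
    intro d
    have hadj : ∀ c', ∑ c, M.adjugate d c * A c c' = M.det * (1 : Matrix τ τ (Sx N)) d c' := by
      intro c'
      have h1 := congrFun (congrFun (Matrix.adjugate_mul M) d) c'
      rw [Matrix.mul_apply, Matrix.smul_apply, smul_eq_mul] at h1
      exact h1
    have e : rename Sum.inl M.det * X (Sum.inr d) - rename Sum.inl (h d) =
        ∑ c, rename Sum.inl (M.adjugate d c) * aff (A c) (b c) := by
      have e1 : ∀ c, rename Sum.inl (M.adjugate d c) * aff (A c) (b c) =
          ∑ c', rename Sum.inl (M.adjugate d c * A c c') * X (Sum.inr c') +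
            rename Sum.inl (M.adjugate d c * b c) := by
        intro c
        rw [aff_smul]
        rfl
      simp only [e1, Finset.sum_add_distrib]
      rw [Finset.sum_comm]
      have e2 : ∀ c', ∑ c, rename Sum.inl (M.adjugate d c * A c c') * X (Sum.inr c') =
          rename Sum.inl (M.det * (1 : Matrix τ τ (Sx N)) d c') *
            (X (Sum.inr c') : MvPolynomial (Fin (N + 1) ⊕ τ) ℂ) := by
        intro c'
        rw [← Finset.sum_mul, ← map_sum, hadj]
      simp only [e2, Matrix.one_apply, mul_one, mul_zero, apply_ite, map_zero]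
      simp only [h, map_neg, map_sum, sub_neg_eq_add]
      congr 1
      simp [ite_mul]
    rw [e]
    exact P.sum_mem fun c _ => P.mul_mem_left _ (hA c)
  refine ⟨fun c => eval z (h c), M.det, h, ?_, hgX, ?_⟩
  · rw [hg]
    exact one_ne_zero
  · intro A' b' hA'
    have hmem : rename Sum.inl (∑ c, A' c * h c + M.det * b') ∈ P := by
      have e : (rename Sum.inl (∑ c, A' c * h c + M.det * b') :
          MvPolynomial (Fin (N + 1) ⊕ τ) ℂ) = rename Sum.inl M.det * aff A' b' -
          ∑ c, rename Sum.inl (A' c) *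
            (rename Sum.inl M.det * X (Sum.inr c) - rename Sum.inl (h c)) := by
        simp only [aff, map_add, map_sum, map_mul, mul_add, mul_sub, Finset.sum_sub_distrib,
          Finset.mul_sum]
        have e3 : ∀ c : τ, rename Sum.inl M.det * (rename Sum.inl (A' c) * X (Sum.inr c)) =
            rename Sum.inl (A' c) * (rename Sum.inl M.det *
              (X (Sum.inr c) : MvPolynomial (Fin (N + 1) ⊕ τ) ℂ)) := fun c => by ring
        simp only [e3]
        ring
      rw [e]
      exact P.sub_mem (P.mul_mem_left _ hA')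
        (P.sum_mem fun c _ => P.mul_mem_left _ (hgX c))
    have h0 := hz _ hmem
    rw [map_add, map_sum, map_mul, hg, one_mul] at h0
    simpa only [map_mul] using h0

end Pool.Agent.Lib.MP_776403_ag.SD
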