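import Pool.Agent.Lib.MP_776403_ag.SD.SpecA

set_option autoImplicit false

open MvPolynomial

noncomputable section

namespace Pool.Agent.Lib.MP_776403_ag.SD

theorem aDualV : S_DualV := by
  classical
  intro N c p g hli
  obtain ⟨f, hf⟩ := LinearMap.exists_extend hli.repr
  have hf' : ∀ i j : {i // p i}, f (g j) i = if i = j then 1 else 0 := by
    intro i j
    have h1 : g j ∈ Submodule.span ℂ (Set.range fun i : {i // p i} => g i) :=
      Submodule.subset_span ⟨j, rfl⟩
    have h2 := LinearMap.congr_fun hf ⟨g j, h1⟩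
    rw [LinearMap.comp_apply, Submodule.subtype_apply] at h2
    rw [h2, hli.repr_eq_single j ⟨g j, h1⟩ rfl, Finsupp.single_apply]
    by_cases h : j = i
    · rw [if_pos h, if_pos h.symm]
    · rw [if_neg h, if_neg (Ne.symm h)]
  refine ⟨fun i l => if h : p i then f (fun k => if l = k then 1 else 0) ⟨i, h⟩ else 0,
    fun i j hi hj => ?_⟩
  have h3 := hf' ⟨i, hi⟩ ⟨j, hj⟩
  have h4 : f (g j) ⟨i, hi⟩ = ∑ l, g j l * f (fun k => if l = k then 1 else 0) ⟨i, hi⟩ := by
    have h5 := LinearMap.pi_apply_eq_sum_univ f (g j)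
    rw [h5, Finsupp.finsetSum_apply]
    rfl
  have h6 : (if i = j then (1 : ℂ) else 0) = if (⟨i, hi⟩ : {i // p i}) = ⟨j, hj⟩ then 1 else 0 := by
    by_cases h : i = j
    · rw [if_pos h, if_pos (Subtype.ext h)]
    · rw [if_neg h, if_neg (fun h' => h (congrArg Subtype.val h'))]
  rw [h6, ← h3]
  show ∑ l, (if h : p i then f (fun k => if l = k then 1 else 0) ⟨i, h⟩ else 0) * g j l =
    f (g j) ⟨i, hi⟩
  rw [h4]
  refine Finset.sum_congr rfl fun l _ => ?_
  rw [dif_pos hi, mul_comm]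

end Pool.Agent.Lib.MP_776403_ag.SD
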