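import Pool.Agent.Lib.MP_776403_ag.SD.SpecA

/-!
# THEOREM SD, part A: existence of the family of lines with sections (S_Fam)
-/

set_option autoImplicit false

open MvPolynomial

noncomputable section

namespace Pool.Agent.Lib.MP_776403_ag.SD

namespace FamAux

variable {N : ℕ}

/-- The additional equations. -/
def eqs {c : ℕ} (d : Fin c → ℕ) (hd : ∀ i, 2 ≤ d i) (k : ℕ) (lam : Vx N) (w : Fin c → Vx N) :
    Option (Σ i : Fin c, Fin (k + 1 - d i)) → Ak N k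
  | none => ∑ l, C (lam l) * X (Sum.inl l)
  | some p => nrmA (w p.1) ⟨p.2.1, by have h1 := p.2.2; have h2 := hd p.1; omega⟩

theorem card_eqs {c : ℕ} (d : Fin c → ℕ) (k : ℕ) :
    Fintype.card (Option (Σ i : Fin c, Fin (k + 1 - d i))) = 1 + ∑ i, (k + 1 - d i) := by
  rw [Fintype.card_option, Fintype.card_sigma]
  simp only [Fintype.card_fin]
  omega

theorem eqs_wh {c : ℕ} (d : Fin c → ℕ) (hd : ∀ i, 2 ≤ d i) (k : ℕ) (lam : Vx N)
    (w : Fin c → Vx N) (q : Option (Σ i : Fin c, Fin (k + 1 - d i))) :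
    ∃ n : ℕ, IsWeightedHomogeneous (wt N k) (eqs d hd k lam w q) n := by
  rcases q with _ | p
  · refine ⟨1, ?_⟩
    refine IsWeightedHomogeneous.sum Finset.univ _ 1 fun l _ => ?_
    have h := (isWeightedHomogeneous_C (wt N k) (lam l)).mul
      (isWeightedHomogeneous_X ℂ (wt N k) (Sum.inl l))
    simpa [wt] using h
  · refine ⟨p.2.1 + 1, ?_⟩
    refine IsWeightedHomogeneous.sum Finset.univ _ _ fun l _ => ?_
    have h := (isWeightedHomogeneous_C (wt N k) (w p.1 l)).mul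
      (isWeightedHomogeneous_X ℂ (wt N k) (Sum.inr (l, (⟨p.2.1, by
        have h1 := p.2.2; have h2 := hd p.1; omega⟩ : Fin k))))
    simpa [wt] using h

theorem eqs_pt {c : ℕ} (d : Fin c → ℕ) (hd : ∀ i, 2 ≤ d i) (k : ℕ) (lam v0 : Vx N)
    (w : Fin c → Vx N) (s0 : Fin (N + 1) → Polynomial ℂ)
    (h0 : ∑ l, lam l * v0 l = 0)
    (h1 : ∀ i, ∀ j : ℕ, j < k + 1 - d i → ∑ l, w i l * (s0 l).coeff (j + 1) = 0)
    (q : Option (Σ i : Fin c, Fin (k + 1 - d i))) :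
    eqs d hd k lam w q ∈ ptI (ptA k v0 s0) := by
  rw [ptI, RingHom.mem_ker]
  rcases q with _ | p
  · change eval (ptA k v0 s0) (∑ l, C (lam l) * X (Sum.inl l)) = 0
    rw [map_sum]
    simp only [map_mul, eval_C, eval_X]
    exact h0
  · change eval (ptA k v0 s0) (∑ l, C (w p.1 l) * X (Sum.inr (l, _))) = 0
    rw [map_sum]
    simp only [map_mul, eval_C, eval_X]
    exact h1 p.1 p.2.1 p.2.2

end FamAux

open FamAux

theorem aFam : S_E → S_WH → S_PtE → S_Krull → S_Gen → S_Ari → S_Fam := by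
  intro hE hWH hPt hK hG hA N c d I hI k G hk hex x v0 lam w hline hlx hlv hw L hL s0 hs0 hn
  obtain ⟨b, hb1, hb2⟩ := hE N c d I hI x v0 hline L hL k s0 hs0
  obtain ⟨b', hb1', hb2'⟩ := hG _ (ptA k v0 s0) _ _ b _ (eqs d hI.two_le k lam w) hb1 hb2
  obtain ⟨w1, w2, w3, w4⟩ := hWH N I x (fun i => (s0 i).coeff 0) k
  have hwh : IsWH (wt N k) (J1 I x k ⊔ J2 I x (fun i => (s0 i).coeff 0) k ⊔
      Ideal.span (Set.range (eqs d hI.two_le k lam w))) := by
    refine w3 _ _ (w3 _ _ w1 w2) (w4 _ ?_)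
    rintro _ ⟨q, rfl⟩
    exact eqs_wh d hI.two_le k lam w q
  obtain ⟨-, -, -, p4, p5⟩ := hPt N I hI.hom x v0 k hline s0 hs0
  have hle : J1 I x k ⊔ J2 I x (fun i => (s0 i).coeff 0) k ⊔
      Ideal.span (Set.range (eqs d hI.two_le k lam w)) ≤ ptI (ptA k v0 s0) := by
    refine sup_le (sup_le p4 p5) (Ideal.span_le.mpr ?_)
    rintro _ ⟨q, rfl⟩
    exact eqs_pt d hI.two_le k lam v0 w s0 hlv hn q
  obtain ⟨P, P1, P2, P3, P4, y, hy⟩ := hK _ (wt N k) _ (ptA k v0 s0) _ b' hwh hle hb1' hb2'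
  have hsp : ∀ q, eqs d hI.two_le k lam w q ∈ P := fun q =>
    P2 (Ideal.mem_sup_right (Ideal.subset_span ⟨q, rfl⟩))
  refine ⟨P, ⟨hlx, hw, P1, P4, ?_, ?_, hsp none, ?_⟩, P3, ?_⟩
  · exact le_trans (le_trans le_sup_left le_sup_left) P2
  · exact le_trans (le_trans le_sup_right le_sup_left) P2
  · intro i j hj
    exact hsp (some ⟨i, ⟨j.1, hj⟩⟩)
  · have har := hA N c k d hI.two_le hI.large hk hex
    rw [← card_eqs d k] at har
    exact ⟨fun i => y (Fin.castLE har i), hy.comp _ (Fin.castLE_injective har)⟩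

end Pool.Agent.Lib.MP_776403_ag.SD
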