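import Pool.Agent.Lib.MP_776403_ag.SD.SpecA

/-!
# Step A: application of Lemma N
-/

set_option autoImplicit false

open MvPolynomial

noncomputable section

namespace Pool.Agent.Lib.MP_776403_ag.SD

namespace FinAAux

variable {N : ℕ}

/-- `grad F` is a section of degree `m` for a form `F ∈ I` of degree `m`. -/
theorem sect_grad {I J : Ideal (Sx N)} (hIJ : I ≤ J) {F : Sx N} {m : ℕ} (hF : F ∈ I)
    (hm : F.IsHomogeneous m) : IsSect I J m (fun y => grad F y) := by
  intro y hy h0
  refine ⟨Submodule.subset_span ⟨F, hF, rfl⟩, fun l => pderiv l F, 1, 0, fun l => ?_,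
    isHomogeneous_one _ _, by simp, fun z _ _ l => ?_⟩
  · rw [zero_add]
    exact hm.pderiv
  · simp [grad]

end FinAAux

open FinAAux

theorem aFinA : S_Perp → S_N → S_FinA := by
  intro _ hN N c d I hI K G hK hD J hJ hJh hIJ sig hsig hGS
  classical
  let e : Fin (Fintype.card {i // d i ≤ K}) ≃ {i // d i ≤ K} := (Fintype.equivFin _).symm
  let f : Fin (Fintype.card {i // d i ≤ K}) → Fin c := fun i => (e i).1
  have hfK : ∀ i, d (f i) ≤ K := fun i => (e i).2
  have hfr : ∀ j, d j ≤ K → ∃ i, f i = j := fun j hj => ⟨e.symm ⟨j, hj⟩, by simp [f]⟩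
  refine hN N c d I hI J hJ hJh hIJ (Fintype.card {i // d i ≤ K})
    (Fin.snoc (α := fun _ => Vx N → Vx N) (fun i y => grad (G (f i)) y) sig)
    (Fin.snoc (α := fun _ => ℕ) (fun i => d (f i)) K) f ?_ ?_ ?_ ?_ ?_ ?_
  · intro i
    refine Fin.lastCases ?_ (fun i => ?_) i
    · rw [Fin.snoc_last, Fin.snoc_last]
      exact hsig
    · rw [Fin.snoc_castSucc, Fin.snoc_castSucc]
      exact sect_grad hIJ (hD.hom _ (hfK i)).1 (hD.hom _ (hfK i)).2
  · intro i
    refine Fin.lastCases ?_ (fun i => ?_) i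
    · rw [Fin.snoc_last]
      exact hK
    · rw [Fin.snoc_castSucc]
      have := hI.two_le (f i)
      omega
  · intro y hy h0
    have h1 : (fun i => (Fin.snoc (α := fun _ => Vx N → Vx N) (fun i y => grad (G (f i)) y) sig :
        Fin (Fintype.card {i // d i ≤ K} + 1) → Vx N → Vx N) i y) =
        Fin.snoc (α := fun _ => Vx N) (fun i => grad (G (f i)) y) (sig y) := by
      funext i
      refine Fin.lastCases ?_ (fun i => ?_) i
      · rw [Fin.snoc_last, Fin.snoc_last]
      · rw [Fin.snoc_castSucc, Fin.snoc_castSucc]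
    rw [h1, linearIndependent_finSnoc]
    refine ⟨(hD.ind y (fun F hF => hy F (hIJ hF)) h0).comp e e.injective, fun h => ?_⟩
    refine hGS y hy h0 (Submodule.span_mono ?_ h)
    rintro _ ⟨i, rfl⟩
    exact ⟨f i, hfK i, rfl⟩
  · intro i j hij
    exact e.injective (Subtype.ext hij)
  · intro i
    rw [Fin.snoc_castSucc]
  · intro j hj h
    rw [Fin.snoc_last] at h
    exact hj (hfr j h.le)

end Pool.Agent.Lib.MP_776403_ag.SD
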