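import Pool.Agent.Lib.MP_776403_ag.SD.SpecA

/-!
# THEOREM SD, part A: adding generators to an ideal
-/

set_option autoImplicit false

open MvPolynomial

noncomputable section

namespace Pool.Agent.Lib.MP_776403_ag.SD

theorem aGen : S_Gen := by
  intro σ z J g b ι _ e hb hJ
  let e' : Fin (Fintype.card ι) → MvPolynomial σ ℂ := fun i => e ((Fintype.equivFin ι).symm i)
  let b' : Fin (g + Fintype.card ι) → MvPolynomial σ ℂ := Fin.append b e'
  have h1 : Ideal.span (Set.range b) ≤ Ideal.span (Set.range b') := by
    refine Ideal.span_le.2 ?_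
    rintro _ ⟨i, rfl⟩
    refine Ideal.subset_span ⟨Fin.castAdd _ i, ?_⟩
    exact Fin.append_left b e' i
  have h2 : Ideal.span (Set.range e) ≤ Ideal.span (Set.range b') := by
    refine Ideal.span_le.2 ?_
    rintro _ ⟨i, rfl⟩
    refine Ideal.subset_span ⟨Fin.natAdd _ (Fintype.equivFin ι i), ?_⟩
    refine (Fin.append_right b e' _).trans ?_
    show e ((Fintype.equivFin ι).symm (Fintype.equivFin ι i)) = e i
    rw [Equiv.symm_apply_apply]
  refine ⟨b', fun i => ?_, ?_⟩
  · refine Fin.addCases (fun j => ?_) (fun j => ?_) i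
    · have h : b' (Fin.castAdd _ j) = b j := Fin.append_left b e' j
      rw [h]
      exact Ideal.mem_sup_left (hb j)
    · have h : b' (Fin.natAdd _ j) = e' j := Fin.append_right b e' j
      rw [h]
      exact Ideal.mem_sup_right (Ideal.subset_span ⟨_, rfl⟩)
  · refine sup_le (hJ.trans (sup_le ?_ ?_)) ?_
    · exact h1.trans le_sup_left
    · exact (Ideal.mul_mono_right le_sup_left).trans le_sup_right
    · exact h2.trans le_sup_left

end Pool.Agent.Lib.MP_776403_ag.SD
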