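import Pool.Agent.Lib.MP_776403_ag.SD.SpecA

/-!
# THEOREM SD, part A: independence of the section (helper34)
-/

set_option autoImplicit false

open MvPolynomial

noncomputable section

namespace Pool.Agent.Lib.MP_776403_ag.SD

theorem aIndA : S_CombV → S_L3 → S_IndA := by
  intro hC hL3 N c d I hyp K G hK hD hP x z ξ u hξ hline s hs h1 h0 hu
  obtain ⟨L, hL, hL0, hsL⟩ := hL3 N c d I hyp K K G hK (Or.inl rfl) hD hP x z hline s hs 0 1
    (Or.inr one_ne_zero) (by rw [h0, zero_smul, one_smul, zero_add]; exact hu)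
  have h2 := (hC N c d I hyp.two_le K G (fun i hi => hD.hom i hi) x z hline K L hL hL0).2 1 0
  apply hξ
  have hs' : s = fun l => ∑ i, L i * gradL x z (G i) l := by
    rw [hsL]
    funext l
    rw [Finset.sum_apply]
  rw [← hs', h1, one_smul, zero_smul, add_zero] at h2
  exact h2

end Pool.Agent.Lib.MP_776403_ag.SD
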