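import Pool.Agent.Lib.MP_776403_ag.SD.SpecA

/-!
# THEOREM SD, part A: existence of the normalization
-/

set_option autoImplicit false

open MvPolynomial

noncomputable section

namespace Pool.Agent.Lib.MP_776403_ag.SD

namespace NrmEAux

variable {N c : ℕ} {d : Fin c → ℕ} {K : ℕ}

/-- The polynomials with given coefficients. -/
def La (a : (i : Fin c) → Fin (K - d i) → ℂ) (i : Fin c) : Polynomial ℂ :=
  ∑ j : Fin (K - d i), Polynomial.monomial (j.1 + 1) (a i j)

theorem La_add (a b : (i : Fin c) → Fin (K - d i) → ℂ) (i : Fin c) :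
    La (a + b) i = La a i + La b i := by
  unfold La
  rw [← Finset.sum_add_distrib]
  refine Finset.sum_congr rfl fun j _ => ?_
  rw [Pi.add_apply, Pi.add_apply, map_add]

theorem La_smul (r : ℂ) (a : (i : Fin c) → Fin (K - d i) → ℂ) (i : Fin c) :
    La (r • a) i = Polynomial.C r * La a i := by
  unfold La
  rw [Finset.mul_sum]
  refine Finset.sum_congr rfl fun j _ => ?_
  rw [Pi.smul_apply, Pi.smul_apply, smul_eq_mul, Polynomial.C_mul_monomial]

theorem La_coeff (a : (i : Fin c) → Fin (K - d i) → ℂ) (i : Fin c) (j : Fin (K - d i)) :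
    (La a i).coeff (j.1 + 1) = a i j := by
  unfold La
  rw [Polynomial.finsetSum_coeff, Finset.sum_eq_single j]
  · rw [Polynomial.coeff_monomial, if_pos rfl]
  · intro j' _ hne
    rw [Polynomial.coeff_monomial, if_neg]
    intro h
    exact hne (Fin.ext (by lia))
  · intro h
    exact absurd (Finset.mem_univ _) h

theorem La_zero (a : (i : Fin c) → Fin (K - d i) → ℂ) (i : Fin c) : (La a i).coeff 0 = 0 := by
  unfold La
  rw [Polynomial.finsetSum_coeff]
  refine Finset.sum_eq_zero fun j _ => ?_
  rw [Polynomial.coeff_monomial, if_neg (Nat.succ_ne_zero _)]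

theorem La_deg (a : (i : Fin c) → Fin (K - d i) → ℂ) (i : Fin c) :
    La a i ∈ Polynomial.degreeLT ℂ (K + 1 - d i) := by
  unfold La
  refine Submodule.sum_mem _ fun j _ => ?_
  rw [Polynomial.mem_degreeLT]
  refine lt_of_le_of_lt (Polynomial.degree_monomial_le _ _) ?_
  have h1 := j.2
  have h2 : j.1 + 1 < K + 1 - d i := by lia
  exact_mod_cast h2

/-- The linear map. -/
def T (G : Fin c → Sx N) (x v : Vx N) (w : Fin c → Vx N) :
    ((i : Fin c) → Fin (K - d i) → ℂ) →ₗ[ℂ] ((i : Fin c) → Fin (K - d i) → ℂ) where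
  toFun a i j := (∑ l, Polynomial.C (w i l) * ∑ i', La a i' * gradL x v (G i') l).coeff (j.1 + 1)
  map_add' a b := by
    funext i j
    simp only [La_add, add_mul, Finset.sum_add_distrib, mul_add, Polynomial.coeff_add,
      Pi.add_apply]
  map_smul' r a := by
    funext i j
    have h : (∑ l, Polynomial.C (w i l) * ∑ i', La (r • a) i' * gradL x v (G i') l) =
        Polynomial.C r * ∑ l, Polynomial.C (w i l) * ∑ i', La a i' * gradL x v (G i') l := by
      rw [Finset.mul_sum]
      refine Finset.sum_congr rfl fun l _ => ?_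
      have h2 : (∑ i', La (r • a) i' * gradL x v (G i') l) =
          Polynomial.C r * ∑ i', La a i' * gradL x v (G i') l := by
        rw [Finset.mul_sum]
        refine Finset.sum_congr rfl fun i' _ => ?_
        rw [La_smul, mul_assoc]
      rw [h2]
      ring
    rw [h, Polynomial.coeff_C_mul]
    rfl

end NrmEAux

open NrmEAux

theorem aNrmE : S_NrmU → S_NrmE := by
  intro hU N c d K G x v w hw s
  have hinj : Function.Injective (T (d := d) (K := K) G x v w) := by
    rw [injective_iff_map_eq_zero]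
    intro a ha
    have h := hU N c d K G x v w hw (La a) (La_deg a) (La_zero a) ?_
    · funext i j
      rw [← La_coeff a i j, h i]
      rfl
    · intro i j hj1 hj2
      obtain ⟨j', rfl⟩ : ∃ j', j = j' + 1 := ⟨j - 1, by lia⟩
      exact congrFun (congrFun ha i) (⟨j', by lia⟩ : Fin (K - d i))
  have hsurj := LinearMap.injective_iff_surjective.1 hinj
  obtain ⟨a, ha⟩ := hsurj fun i j => (∑ l, Polynomial.C (w i l) * s l).coeff (j.1 + 1)
  refine ⟨La a, La_deg a, La_zero a, ?_⟩
  intro i j hj1 hj2
  obtain ⟨j', rfl⟩ : ∃ j', j = j' + 1 := ⟨j - 1, by lia⟩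
  have h := congrFun (congrFun ha i) (⟨j', by lia⟩ : Fin (K - d i))
  have h' : (∑ l, Polynomial.C (w i l) * ∑ i', La a i' * gradL x v (G i') l).coeff (j' + 1) =
      (∑ l, Polynomial.C (w i l) * s l).coeff (j' + 1) := h
  simp only [mul_sub, Finset.sum_sub_distrib, Polynomial.coeff_sub]
  rw [h', sub_self]

end Pool.Agent.Lib.MP_776403_ag.SD
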