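import Pool.Agent.Lib.MP_776403_ag.SD.SpecA
import Pool.Agent.Lib.MP_776403_ag.SD.Bas

/-! THEOREM SD, part A: uniqueness of the normalization. -/

set_option autoImplicit false

open MvPolynomial

noncomputable section

namespace Pool.Agent.Lib.MP_776403_ag.SD

namespace NrmUAux

private theorem coeff_zero_gradL {N : ℕ} (x v : Vx N) (G : Sx N) (l : Fin (N + 1)) :
    (gradL x v G l).coeff 0 = grad G x l := by
  unfold gradL grad
  rw [Polynomial.coeff_zero_eq_eval_zero, lin_eval, zero_smul, add_zero]

private theorem coeff_mul_low (p q : Polynomial ℂ) (n : ℕ) (hp : ∀ m < n, p.coeff m = 0) :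
    (p * q).coeff n = p.coeff n * q.coeff 0 := by
  rw [Polynomial.coeff_mul]
  rw [Finset.sum_eq_single_of_mem (n, 0) (by simp)]
  rintro ⟨a, b⟩ hab hne
  rw [Finset.HasAntidiagonal.mem_antidiagonal] at hab
  have ha : a < n := by
    rcases Nat.lt_or_ge a n with h | h
    · exact h
    · exfalso
      apply hne
      have h1 : a = n := by omega
      have h2 : b = 0 := by omega
      rw [h1, h2]
  change p.coeff a * q.coeff b = 0
  rw [hp a ha, zero_mul]

private theorem coeff_of_degreeLT {p : Polynomial ℂ} {m n : ℕ}
    (hp : p ∈ Polynomial.degreeLT ℂ m) (h : m ≤ n) : p.coeff n = 0 := by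
  rw [Polynomial.mem_degreeLT] at hp
  exact Polynomial.coeff_eq_zero_of_degree_lt (lt_of_lt_of_le hp (by exact_mod_cast h))

end NrmUAux

theorem aNrmU : S_NrmU := by
  intro N c d K G x v w hw L hL h0 hn
  have key : ∀ n : ℕ, ∀ i, (L i).coeff n = 0 := by
    intro n
    induction n using Nat.strong_induction_on with
    | _ n ih =>
      intro i
      rcases Nat.eq_zero_or_pos n with rfl | hpos
      · exact h0 i
      by_cases hi : K + 1 - d i ≤ n
      · exact NrmUAux.coeff_of_degreeLT (hL i) hi
      have hdi : d i ≤ K := by omega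
      have h1 := hn i n hpos (by omega)
      rw [Polynomial.finsetSum_coeff] at h1
      have h2 : ∀ l : Fin (N + 1),
          (Polynomial.C (w i l) * ∑ i', L i' * gradL x v (G i') l).coeff n =
            ∑ i', (L i').coeff n * (w i l * grad (G i') x l) := by
        intro l
        rw [Polynomial.coeff_C_mul, Polynomial.finsetSum_coeff, Finset.mul_sum]
        refine Finset.sum_congr rfl fun i' _ => ?_
        rw [NrmUAux.coeff_mul_low _ _ n fun m hm => ih m hm i', NrmUAux.coeff_zero_gradL]
        ring
      rw [Finset.sum_congr rfl fun l _ => h2 l, Finset.sum_comm] at h1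
      have h3 : ∀ i' : Fin c, ∑ l, (L i').coeff n * (w i l * grad (G i') x l) =
          if i = i' then (L i').coeff n else 0 := by
        intro i'
        rw [← Finset.mul_sum]
        by_cases hi' : d i' ≤ K
        · rw [hw i i' hdi hi']
          split_ifs
          · rw [mul_one]
          · rw [mul_zero]
        · have h4 : (L i').coeff n = 0 := NrmUAux.coeff_of_degreeLT (hL i') (by omega)
          rw [h4, zero_mul]
          split_ifs <;> rfl
      rw [Finset.sum_congr rfl fun i' _ => h3 i', Finset.sum_ite_eq Finset.univ i] at h1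
      rw [if_pos (Finset.mem_univ i)] at h1
      exact h1
  intro i
  ext n
  rw [key n i, Polynomial.coeff_zero]

end Pool.Agent.Lib.MP_776403_ag.SD
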