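import Pool.Agent.Lib.MP_776403_ag.SD.SpecA
import Pool.Agent.Lib.MP_776403_ag.SD.Bas

/-!
# THEOREM SD, part A, module Repar: change of the second point of a line
-/

set_option autoImplicit false

open MvPolynomial

noncomputable section

namespace Pool.Agent.Lib.MP_776403_ag.SD

namespace ReparAux

variable {N : ℕ}

theorem isLine_add {I : Ideal (Sx N)} {x v : Vx N} (μ : ℂ) (h : IsLine I x v) :
    IsLine I x (v + μ • x) := by
  refine ⟨LinearIndependent.pair_iff.2 fun a b hab => ?_, fun s t => ?_⟩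
  · have h1 : (a + b * μ) • x + b • v = 0 := by
      rw [← hab, add_smul, smul_add, smul_smul]
      abel
    obtain ⟨h2, h3⟩ := LinearIndependent.pair_iff.1 h.1 _ _ h1
    refine ⟨?_, h3⟩
    rw [h3, zero_mul, add_zero] at h2
    exact h2
  · have h1 : s • x + t • (v + μ • x) = (s + t * μ) • x + t • v := by
      rw [add_smul, smul_add, smul_smul]
      abel
    rw [h1]
    exact h.2 _ _

/-- The polynomial after the change of the parameter. -/
def rp (n : ℕ) (μ : ℂ) (p : Polynomial ℂ) : Polynomial ℂ :=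
  ∑ j ∈ Finset.range n, Polynomial.C (p.coeff j) *
    (1 + Polynomial.C μ * Polynomial.X) ^ (n - 1 - j) * Polynomial.X ^ j

theorem rp_mem (n : ℕ) (μ : ℂ) (p : Polynomial ℂ) : rp n μ p ∈ Polynomial.degreeLT ℂ n := by
  refine Submodule.sum_mem _ fun j hj => ?_
  have hj' := Finset.mem_range.1 hj
  rw [Polynomial.mem_degreeLT]
  have h1 : (Polynomial.C (p.coeff j) * (1 + Polynomial.C μ * Polynomial.X) ^ (n - 1 - j) *
      Polynomial.X ^ j).natDegree ≤ n - 1 := by
    have h0 : (1 + Polynomial.C μ * Polynomial.X : Polynomial ℂ).natDegree ≤ 1 := by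
      compute_degree
    have h2 : ((1 + Polynomial.C μ * Polynomial.X : Polynomial ℂ) ^ (n - 1 - j)).natDegree ≤
        (n - 1 - j) * 1 := Polynomial.natDegree_pow_le_of_le _ h0
    refine (Polynomial.natDegree_mul_le).trans ?_
    have h3 := Polynomial.natDegree_C_mul_le (p.coeff j)
      ((1 + Polynomial.C μ * Polynomial.X : Polynomial ℂ) ^ (n - 1 - j))
    rw [Polynomial.natDegree_X_pow]
    omega
  refine lt_of_le_of_lt Polynomial.degree_le_natDegree ?_
  exact_mod_cast (show (Polynomial.C (p.coeff j) *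
    (1 + Polynomial.C μ * Polynomial.X) ^ (n - 1 - j) * Polynomial.X ^ j).natDegree < n by omega)

theorem rp_val_ne {n : ℕ} (hn : 1 ≤ n) (μ : ℂ) (p : Polynomial ℂ) {σ : ℂ} (hσ : σ ≠ 0) (τ : ℂ) :
    ∑ j ∈ Finset.range n, (rp n μ p).coeff j * σ ^ (n - 1 - j) * τ ^ j =
      ∑ j ∈ Finset.range n, p.coeff j * (σ + μ * τ) ^ (n - 1 - j) * τ ^ j := by
  have h1 := rp_mem n μ p
  have h2 := homog_val (m := n - 1) (by rwa [Nat.sub_add_cancel hn]) hσ τ
  rw [Nat.sub_add_cancel hn] at h2
  rw [h2]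
  unfold rp
  rw [Polynomial.eval_finsetSum, Finset.mul_sum]
  refine Finset.sum_congr rfl fun j hj => ?_
  have hj' := Finset.mem_range.1 hj
  simp only [Polynomial.eval_mul, Polynomial.eval_C, Polynomial.eval_pow, Polynomial.eval_add,
    Polynomial.eval_one, Polynomial.eval_X]
  have h3 : σ ^ (n - 1) = σ ^ (n - 1 - j) * σ ^ j := by
    rw [← pow_add]
    congr 1
    omega
  have h4 : σ * (1 + μ * (τ / σ)) = σ + μ * τ := by
    field_simp
  have h5 : σ * (τ / σ) = τ := mul_div_cancel₀ _ hσ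
  rw [h3]
  calc σ ^ (n - 1 - j) * σ ^ j * (p.coeff j * (1 + μ * (τ / σ)) ^ (n - 1 - j) * (τ / σ) ^ j)
      = p.coeff j * (σ * (1 + μ * (τ / σ))) ^ (n - 1 - j) * (σ * (τ / σ)) ^ j := by
        rw [mul_pow, mul_pow]
        ring
    _ = p.coeff j * (σ + μ * τ) ^ (n - 1 - j) * τ ^ j := by rw [h4, h5]

theorem rp_val (n : ℕ) (μ : ℂ) (p : Polynomial ℂ) (σ τ : ℂ) :
    ∑ j ∈ Finset.range n, (rp n μ p).coeff j * σ ^ (n - 1 - j) * τ ^ j =
      ∑ j ∈ Finset.range n, p.coeff j * (σ + μ * τ) ^ (n - 1 - j) * τ ^ j := by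
  rcases Nat.eq_zero_or_pos n with hn | hn
  · subst hn
    simp
  have h1 : (∑ j ∈ Finset.range n, Polynomial.C ((rp n μ p).coeff j * τ ^ j) *
      Polynomial.X ^ (n - 1 - j)) = ∑ j ∈ Finset.range n, Polynomial.C (p.coeff j * τ ^ j) *
        (Polynomial.X + Polynomial.C (μ * τ)) ^ (n - 1 - j) := by
    refine Polynomial.eq_of_infinite_eval_eq _ _ (Set.Infinite.mono (s := {0}ᶜ) ?_ ?_)
    · intro s hs
      have hs' : s ≠ 0 := by simpa using hs
      have h2 := rp_val_ne hn μ p hs' τ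
      rw [Set.mem_ofPred_eq, Polynomial.eval_finsetSum, Polynomial.eval_finsetSum]
      simp only [Polynomial.eval_mul, Polynomial.eval_C, Polynomial.eval_pow, Polynomial.eval_X,
        Polynomial.eval_add]
      refine Eq.trans (Finset.sum_congr rfl fun j _ => ?_) (h2.trans
        (Finset.sum_congr rfl fun j _ => ?_))
      · ring
      · ring
    · exact Set.Finite.infinite_compl (Set.finite_singleton 0)
  have h2 := congrArg (Polynomial.eval σ) h1
  rw [Polynomial.eval_finsetSum, Polynomial.eval_finsetSum] at h2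
  simp only [Polynomial.eval_mul, Polynomial.eval_C, Polynomial.eval_pow, Polynomial.eval_X,
    Polynomial.eval_add] at h2
  refine Eq.trans (Finset.sum_congr rfl fun j _ => ?_) (h2.trans
    (Finset.sum_congr rfl fun j _ => ?_))
  · ring
  · ring

end ReparAux

open ReparAux in
theorem aRepar : S_SecVal → S_Repar := by
  intro hSV N c I hI hh hsm x v μ hl
  refine ⟨isLine_add μ hl, fun n s hs => ?_⟩
  have hval' : ∀ σ τ : ℂ, hval (fun i => rp n μ (s i)) n σ τ = hval s n (σ + μ * τ) τ := by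
    intro σ τ
    funext i
    exact rp_val n μ (s i) σ τ
  refine ⟨fun i => rp n μ (s i), ?_, hval'⟩
  rw [hSV N c I hI hh hsm x (v + μ • x) (isLine_add μ hl) n _ fun i => rp_mem n μ (s i)]
  intro σ τ hστ
  rw [hval']
  have h1 := (hSV N c I hI hh hsm x v hl n s hs.1).1 hs (σ + μ * τ) τ (by
    by_cases hτ : τ = 0
    · left
      rw [hτ, mul_zero, add_zero]
      rcases hστ with h | h
      · exact h
      · exact absurd hτ h
    · exact Or.inr hτ)
  have h2 : σ • x + τ • (v + μ • x) = (σ + μ * τ) • x + τ • v := by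
    rw [add_smul, smul_add, smul_smul, mul_comm μ τ]
    abel
  rw [h2]
  exact h1

end Pool.Agent.Lib.MP_776403_ag.SD
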